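import Pool.Agent.Q81.TF.Stm

open Set MeasureTheory Filter Topology

namespace Pool.Agent.Q222.TF

open Pool.Agent.Q81.TF

theorem base : S_BASE := by
  intro n x0 x1 t1 t2 W D s g h1 h2 h3 ht S Z bl hbl
  have F := S.F
  have hn := S.hn
  obtain ⟨Kc, hKc⟩ : ∃ Kc : Set (ℝ × ℝ),
      Kc = (Icc x0 x1 ×ˢ Icc t1 t2) ∩ {z | bl / 2 ≤ mF x0 x1 t1 t2 g z} := ⟨_, rfl⟩
  have hcomp : IsCompact Kc := by
    rw [hKc]
    exact (isCompact_Icc.prod isCompact_Icc).inter_right (isClosed_le continuous_const F.mF_cont)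
  have hKD : Kc ⊆ D := by
    rw [hKc]
    rintro ⟨x, t⟩ ⟨⟨hx, htm⟩, hm⟩
    by_contra hD
    have h0 := F.mF_zero hx htm hD
    have hm' : bl / 2 ≤ mF x0 x1 t1 t2 g (x, t) := hm
    rw [h0] at hm'
    linarith
  obtain ⟨c, hc0, hc⟩ : ∃ c : ℝ, 0 < c ∧ ∀ z ∈ Kc, c ≤ g z := by
    rcases Kc.eq_empty_or_nonempty with h | h
    · exact ⟨1, one_pos, by rw [h]; simp⟩
    · obtain ⟨z0, hz0, hmin⟩ := hcomp.exists_isMinOn h (F.g_cont.mono (hKD.trans S.DW))
      exact ⟨g z0, F.g_pos z0 (hKD hz0), fun z hz => hmin hz⟩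
  have hL : 0 < x1 - x0 := by linarith [F.hx]
  obtain ⟨A, hA⟩ : ∃ A : ℝ, A = (x1 - x0) * c ^ (8 / 5 - n) := ⟨_, rfl⟩
  have hA0 : 0 ≤ A := by
    rw [hA]
    exact mul_nonneg hL.le (Real.rpow_nonneg hc0.le _)
  refine ⟨max (A * (5 / 2)) (10 / bl), fun κ hκ t htm b hb hev => ?_⟩
  have hκ1 : A * (5 / 2) ≤ κ := (le_max_left _ _).trans hκ
  have hκ2 : 10 / bl ≤ κ := (le_max_right _ _).trans hκ
  have hκ0 : 0 < κ := lt_of_lt_of_le (by positivity) hκ2
  have hSg : A < SgK n κ := by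
    unfold SgK
    have h1 : A ≤ sigP n * κ := by
      have : 2 / 5 ≤ sigP n := by unfold sigP; linarith
      nlinarith
    have h2 := Real.add_one_le_exp (sigP n * κ)
    linarith
  have hmu : muK n κ < bl / 4 := by
    unfold muK
    have h0 : 2 / 5 ≤ rhoQ n := by unfold rhoQ lamP rhoP; linarith
    have h1 : 4 / bl ≤ rhoQ n * κ := by
      have e : 4 / bl = 2 / 5 * (10 / bl) := by ring
      rw [e]
      exact mul_le_mul h0 hκ2 (by positivity) (by linarith)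
    have h2 := Real.add_one_le_exp (rhoQ n * κ)
    rw [Real.exp_neg, inv_lt_comm₀ (Real.exp_pos _) (by positivity)]
    have e : (bl / 4)⁻¹ = 4 / bl := by rw [inv_div]
    rw [e]
    linarith
  obtain ⟨w0, w1, w2, WC, hS⟩ := hev
  have hb2 : 0 < b - 2 * muK n κ := by linarith
  have hle : Sf n x0 x1 t1 t2 g w0 t ≤ ∫ _x in x0..x1, c ^ (8 / 5 - n) := by
    unfold Sf
    apply intervalIntegral.integral_mono_on F.hx.le
    · apply ContinuousOn.intervalIntegrable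
      rw [uIcc_of_le F.hx.le]
      exact slice_c (F.Sf_cont S.DW WC hb2) htm
    · exact intervalIntegrable_const
    · intro x hx
      have hpos : 0 ≤ c ^ (8 / 5 - n) := Real.rpow_nonneg hc0.le _
      rcases le_or_gt (mF x0 x1 t1 t2 g (x, t)) (b - 2 * muK n κ) with h | h
      · rw [(WC.lo _ h).1, zero_mul]
        exact hpos
      have hz : (x, t) ∈ Kc := by
        rw [hKc]
        refine ⟨⟨hx, htm⟩, ?_⟩
        change bl / 2 ≤ mF x0 x1 t1 t2 g (x, t)
        linarith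
      have hgc := hc _ hz
      have h4 : g (x, t) ^ (8 / 5 - n) ≤ c ^ (8 / 5 - n) :=
        Real.rpow_le_rpow_of_nonpos hc0 hgc (by linarith)
      have hg0 : 0 ≤ g (x, t) := hc0.le.trans hgc
      calc w0 (mF x0 x1 t1 t2 g (x, t)) * g (x, t) ^ (8 / 5 - n) ≤
          1 * g (x, t) ^ (8 / 5 - n) :=
            mul_le_mul_of_nonneg_right (WC.range _).2 (Real.rpow_nonneg hg0 _)
        _ ≤ _ := by rw [one_mul]; exact h4
  rw [intervalIntegral.integral_const, smul_eq_mul, ← hA] at hle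
  linarith

end Pool.Agent.Q222.TF
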