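import Pool.Agent.Q81.TF.Stm

open Set MeasureTheory Filter Topology

namespace Pool.Agent.Q222.TF

open Pool.Agent.Q81.TF

theorem prim_contOn {p a : ℝ} (hpa : p ≤ a) {u : ℝ → ℝ} (hu : ContinuousOn u (Icc p a)) :
    ContinuousOn (fun x => ∫ y in p..x, u y) (Icc p a) := by
  have h1 : IntegrableOn u (uIcc p a) := by
    rw [uIcc_of_le hpa]
    exact hu.integrableOn_Icc
  have h2 := intervalIntegral.continuousOn_primitive_interval h1
  rwa [uIcc_of_le hpa] at h2

theorem n_aux {n : ℝ} (hn : 3 ≤ n) : n - 1 ≤ n ^ 2 ∧ n - 2 ≤ n ^ 2 ∧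
    (n - 1) * (n - 2) ≤ n ^ 2 := by
  refine ⟨by nlinarith, by nlinarith, by nlinarith⟩

theorem w_aux {u v : ℝ} (hu : 0 ≤ u) : -(u * v) ≤ u * |v| := by
  have h := mul_le_mul_of_nonneg_left (neg_abs_le v) hu
  have e : u * (-|v|) = -(u * |v|) := by ring
  rw [e] at h
  linarith

theorem fin_aux {n B q X S u v k1 k2 l V U : ℝ} (hn : 3 ≤ n) (hB : 0 ≤ B) (hq0 : 0 ≤ q)
    (hX0 : 0 ≤ X) (hS0 : 0 ≤ S) (hu0 : 0 ≤ u) (hv0 : 0 ≤ v)
    (f1' : k1 * l = 17 * ((n - 1) * (B * q)))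
    (f2' : k2 * l = 36 * ((n - 1) * (n - 2) * (B * X)))
    (e4 : (n - 2) * U ≤ (n - 2) * (2 * B * S))
    (e5 : (n - 1) * (n - 2) * V ≤ (n - 1) * (n - 2) * (B * (u / 2 + 7 * v))) :
    (k1 + k2) * l + ((n - 2) * U + (n - 1) * (n - 2) * V) ≤
      50 * (n ^ 2 * B * (u + v + X + S + q)) := by
  obtain ⟨g1, g2, g3⟩ := n_aux hn
  have t1 : (n - 1) * (B * q) ≤ n ^ 2 * (B * q) :=
    mul_le_mul_of_nonneg_right g1 (by positivity)
  have t2 : (n - 1) * (n - 2) * (B * X) ≤ n ^ 2 * (B * X) :=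
    mul_le_mul_of_nonneg_right g3 (by positivity)
  have t3 : (n - 2) * (2 * B * S) ≤ n ^ 2 * (2 * B * S) :=
    mul_le_mul_of_nonneg_right g2 (by positivity)
  have t4 : (n - 1) * (n - 2) * (B * (u / 2 + 7 * v)) ≤ n ^ 2 * (B * (u / 2 + 7 * v)) :=
    mul_le_mul_of_nonneg_right g3 (by positivity)
  have s1 : 0 ≤ n ^ 2 * (B * q) := by positivity
  have s2 : 0 ≤ n ^ 2 * (B * X) := by positivity
  have s3 : 0 ≤ n ^ 2 * (B * S) := by positivity
  have s4 : 0 ≤ n ^ 2 * (B * u) := by positivity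
  have s5 : 0 ≤ n ^ 2 * (B * v) := by positivity
  have t5 : (k1 + k2) * l = 17 * ((n - 1) * (B * q)) +
      36 * ((n - 1) * (n - 2) * (B * X)) := by
    rw [← f1', ← f2']
    ring
  rw [t5]
  have r1 : n ^ 2 * (2 * B * S) = 2 * (n ^ 2 * (B * S)) := by ring
  have r2 : n ^ 2 * (B * (u / 2 + 7 * v)) = (n ^ 2 * (B * u)) / 2 + 7 * (n ^ 2 * (B * v)) := by
    ring
  have r3 : 50 * (n ^ 2 * B * (u + v + X + S + q)) = 50 * (n ^ 2 * (B * u)) +
      50 * (n ^ 2 * (B * v)) + 50 * (n ^ 2 * (B * X)) + 50 * (n ^ 2 * (B * S)) +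
      50 * (n ^ 2 * (B * q)) := by ring
  rw [r3]
  rw [r1] at t3
  rw [r2] at t4
  linarith

theorem sla (hID : S_SLID) (h1 : S_SL1) (h2 : S_SL2) (h3 : S_SL3) (h4 : S_SL4) : S_SLA := by
  intro n p a E b N H Y B Pm f f1 f2 f3 ft m R ζ ζ1 Fr w w1 hB Q C hPm
  have hpa : p ≤ a := Q.P.le
  have hn := Q.hn
  have hN := Q.hN
  have hN0 : 0 < N := by linarith
  have hb := Q.hb
  have hE : 0 ≤ E := Q.P.E_nonneg
  have hH0 := Q.hH0
  have hY0 := Q.hY0
  obtain ⟨c0, c1, c2, c3, cG, cw⟩ := Q.P.cont (le_refl p) (le_refl a)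
  have cm : ContinuousOn m (Icc p a) := fun x hx => (Q.dm x hx).continuousAt.continuousWithinAt
  have cζ : Continuous ζ := continuous_iff_continuousAt.2 fun v => (Q.Z.d0 v).continuousAt
  have cζ1 : Continuous ζ1 := Q.Z.c1
  have cwc : Continuous w := continuous_iff_continuousAt.2 fun r => (C.d1 r).continuousAt
  have cζm : ContinuousOn (fun x => ζ (m x)) (Icc p a) := cζ.comp_continuousOn cm
  have cζ1m : ContinuousOn (fun x => ζ1 (m x)) (Icc p a) := cζ1.comp_continuousOn cm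
  have cR : ContinuousOn R (Icc p a) :=
    (prim_contOn hpa (cζm.mul cw)).congr (fun x hx => Q.hR x hx)
  have cwR : ContinuousOn (fun x => w (R x)) (Icc p a) := cwc.comp_continuousOn cR
  obtain ⟨A, hA⟩ : ∃ A : ℝ → ℝ, A = fun x => ∫ y in p..x, ζ1 (m y) * (f y ^ 2 * f3 y) := ⟨_, rfl⟩
  obtain ⟨K, hK⟩ : ∃ K : ℝ → ℝ, K = fun x => ∫ y in p..x,
    (-(ζ1 (m y) * (f y * (f1 y * f2 y))) - ζ (m y) * f2 y ^ 2) := ⟨_, rfl⟩
  have cA : ContinuousOn A (Icc p a) := by
    rw [hA]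
    exact prim_contOn hpa (cζ1m.mul ((c0.pow 2).mul c3))
  have cK : ContinuousOn K (Icc p a) := by
    rw [hK]
    exact prim_contOn hpa ((cζ1m.mul (c0.mul (c1.mul c2))).neg.sub (cζm.mul (c2.pow 2)))
  obtain ⟨S, hS⟩ : ∃ S, S = Real.sqrt (E / N) := ⟨_, rfl⟩
  have hS0 : 0 ≤ S := by rw [hS]; exact Real.sqrt_nonneg _
  have hNE : Real.sqrt (N * E) = N * S := by
    rw [hS, Real.sqrt_eq_iff_mul_self_eq (by positivity) (by positivity)]
    have e1 := Real.mul_self_sqrt (show 0 ≤ E / N by positivity)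
    symm
    calc N * Real.sqrt (E / N) * (N * Real.sqrt (E / N)) =
        N * N * (Real.sqrt (E / N) * Real.sqrt (E / N)) := by ring
      _ = N * N * (E / N) := by rw [e1]
      _ = N * E := by field_simp
  -- the pointwise bounds
  obtain ⟨k1, hk1⟩ : ∃ k1, k1 = (n - 1) * (B * (17 * H / b * S)) := ⟨_, rfl⟩
  obtain ⟨k2, hk2⟩ : ∃ k2, k2 = (n - 1) * (n - 2) * (B / N * (36 * (Y * H) / b)) := ⟨_, rfl⟩
  have hn1 : 0 ≤ n - 1 := by linarith
  have hn2 : 0 ≤ n - 2 := by linarith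
  have hk10 : 0 ≤ k1 := by rw [hk1]; positivity
  have hk20 : 0 ≤ k2 := by rw [hk2]; positivity
  have hp1 : ∀ x ∈ Icc p a, -((n - 1) * (w (R x) * A x)) ≤ k1 := by
    intro x hx
    rcases le_total (R x) (2 * N) with hR | hR
    · have e1 := h1 n p a E b N H Y f f1 f2 f3 ft m R ζ ζ1 Q x hx hR
      have e2 : -(w (R x) * A x) ≤ B * (17 * H / b * S) := by
        have e3 : |A x| ≤ 17 * H / b * (N * S) := by
          rw [hA, ← hNE]
          exact e1
        have e4 : -(w (R x) * A x) ≤ w (R x) * |A x| := w_aux (C.w0 (R x))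
        have e5 : w (R x) * |A x| ≤ B / N * (17 * H / b * (N * S)) :=
          mul_le_mul (C.wB _) e3 (abs_nonneg _) (by positivity)
        have e6 : B / N * (17 * H / b * (N * S)) = B * (17 * H / b * S) := by
          field_simp
        linarith
      rw [hk1]
      have := mul_le_mul_of_nonneg_left e2 hn1
      linarith
    · rw [(C.hi _ hR).2.1]
      linarith
  have hp2 : ∀ x ∈ Icc p a, (n - 1) * (n - 2) * (w (R x) * K x) ≤ k2 := by
    intro x hx
    rcases le_total (R x) (2 * N) with hR | hR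
    · have e1 := h2 n p a E b N H Y f f1 f2 f3 ft m R ζ ζ1 Q x hx hR
      have e3 : K x ≤ 36 * (Y * H) / b := by
        rw [hK]
        exact e1
      have e4 : w (R x) * K x ≤ B / N * (36 * (Y * H) / b) := by
        have e5 : w (R x) * K x ≤ w (R x) * (36 * (Y * H) / b) :=
          mul_le_mul_of_nonneg_left e3 (C.w0 _)
        have e6 : w (R x) * (36 * (Y * H) / b) ≤ B / N * (36 * (Y * H) / b) :=
          mul_le_mul_of_nonneg_right (C.wB _) (by positivity)
        linarith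
      rw [hk2]
      exact mul_le_mul_of_nonneg_left e4 (mul_nonneg hn1 hn2)
    · rw [(C.hi _ hR).2.1]
      linarith
  -- the integrands
  obtain ⟨U, hU⟩ : ∃ U : ℝ → ℝ, U = fun x => w (R x) * (ζ (m x) * (f x * f3 x)) := ⟨_, rfl⟩
  obtain ⟨V, hV⟩ : ∃ V : ℝ → ℝ, V = fun x => w (R x) * (ζ (m x) * (f1 x * f2 x)) := ⟨_, rfl⟩
  have cU : ContinuousOn U (Icc p a) := by
    rw [hU]
    exact cwR.mul (cζm.mul (c0.mul c3))
  have cV : ContinuousOn V (Icc p a) := by
    rw [hV]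
    exact cwR.mul (cζm.mul (c1.mul c2))
  have hUi : ∫ x in p..a, U x ≤ 2 * B * S := by
    rw [hU, hS]
    exact h4 n p a E b N H Y B f f1 f2 f3 ft m R ζ ζ1 Fr w w1 hB Q C
  have hVi : ∫ x in p..a, V x ≤ B * Pm ^ 2 / (2 * N) + 7 * (B * Y) / N := by
    rw [hV]
    exact h3 n p a E b N H Y B Pm f f1 f2 f3 ft m R ζ ζ1 Fr w w1 hB Q C hPm
  have hint : ∀ {u : ℝ → ℝ}, ContinuousOn u (Icc p a) → IntervalIntegrable u volume p a := by
    intro u hu
    apply ContinuousOn.intervalIntegrable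
    rwa [uIcc_of_le hpa]
  have e1 : ∫ x in p..a, w (R x) * ∫ y in p..x, kft n f f3 ft m ζ ζ1 y =
      ∫ x in p..a, (-((n - 1) * (w (R x) * A x)) + (n - 1) * (n - 2) * (w (R x) * K x) +
        ((n - 2) * U x + (n - 1) * (n - 2) * V x)) := by
    apply intervalIntegral.integral_congr
    intro x hx
    rw [uIcc_of_le hpa] at hx
    have e2 := hID n p a E b N H Y f f1 f2 f3 ft m R ζ ζ1 Q x hx
    show w (R x) * (∫ y in p..x, kft n f f3 ft m ζ ζ1 y) = _
    rw [e2, hA, hK, hU, hV]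
    ring
  have e2 : ∫ x in p..a, (-((n - 1) * (w (R x) * A x)) + (n - 1) * (n - 2) * (w (R x) * K x) +
        ((n - 2) * U x + (n - 1) * (n - 2) * V x)) ≤
      ∫ x in p..a, ((k1 + k2) + ((n - 2) * U x + (n - 1) * (n - 2) * V x)) := by
    apply intervalIntegral.integral_mono_on hpa
    · exact hint (((continuousOn_const.mul (cwR.mul cA)).neg.add
        (continuousOn_const.mul (cwR.mul cK))).add
          ((continuousOn_const.mul cU).add (continuousOn_const.mul cV)))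
    · exact hint (continuousOn_const.add
          ((continuousOn_const.mul cU).add (continuousOn_const.mul cV)))
    · intro x hx
      have := hp1 x hx
      have := hp2 x hx
      linarith
  have e3 : ∫ x in p..a, ((k1 + k2) + ((n - 2) * U x + (n - 1) * (n - 2) * V x)) =
      (k1 + k2) * (a - p) + ((n - 2) * (∫ x in p..a, U x) +
        (n - 1) * (n - 2) * ∫ x in p..a, V x) := by
    have i1 : IntervalIntegrable (fun _ : ℝ => k1 + k2) volume p a := hint continuousOn_const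
    have i2 : IntervalIntegrable (fun x => (n - 2) * U x) volume p a :=
      hint (continuousOn_const.mul cU)
    have i3 : IntervalIntegrable (fun x => (n - 1) * (n - 2) * V x) volume p a :=
      hint (continuousOn_const.mul cV)
    have i4 : IntervalIntegrable (fun x => (n - 2) * U x + (n - 1) * (n - 2) * V x) volume p a :=
      i2.add i3
    rw [intervalIntegral.integral_add i1 i4, intervalIntegral.integral_add i2 i3,
      intervalIntegral.integral_const,
      intervalIntegral.integral_const_mul, intervalIntegral.integral_const_mul, smul_eq_mul]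
    ring
  rw [e1]
  refine e2.trans ?_
  rw [e3, ← hS]
  have e4 := mul_le_mul_of_nonneg_left hUi hn2
  have e5 := mul_le_mul_of_nonneg_left hVi (mul_nonneg hn1 hn2)
  have hl : 0 ≤ a - p := by linarith
  -- the algebra
  obtain ⟨u, hu⟩ : ∃ u, u = Pm ^ 2 / N := ⟨_, rfl⟩
  obtain ⟨v, hv⟩ : ∃ v, v = Y / N := ⟨_, rfl⟩
  obtain ⟨X, hX⟩ : ∃ X, X = (a - p) * (Y * H) / (N * b) := ⟨_, rfl⟩
  obtain ⟨q, hq⟩ : ∃ q, q = (a - p) * H / b * S := ⟨_, rfl⟩
  have hu0 : 0 ≤ u := by rw [hu]; positivity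
  have hv0 : 0 ≤ v := by rw [hv]; positivity
  have hX0 : 0 ≤ X := by rw [hX]; positivity
  have hq0 : 0 ≤ q := by rw [hq]; positivity
  have f1' : k1 * (a - p) = 17 * ((n - 1) * (B * q)) := by
    rw [hk1, hq]
    ring
  have f2' : k2 * (a - p) = 36 * ((n - 1) * (n - 2) * (B * X)) := by
    rw [hk2, hX]
    field_simp
  have f3' : B * Pm ^ 2 / (2 * N) + 7 * (B * Y) / N = B * (u / 2 + 7 * v) := by
    rw [hu, hv]
    field_simp
  have f4' : Pm ^ 2 / N + Y / N + (a - p) * (Y * H) / (N * b) + (1 + (a - p) * H / b) * S =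
      u + v + X + S + q := by
    rw [hu, hv, hX, hq]
    ring
  rw [f4']
  rw [f3'] at e5
  exact fin_aux hn hB hq0 hX0 hS0 hu0 hv0 f1' f2' e4 e5

end Pool.Agent.Q222.TF
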