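import Pool.Agent.Q81.TF.Stm

open Set MeasureTheory Filter Topology

namespace Pool.Agent.Q222.TF

open Pool.Agent.Q81.TF

theorem wrap : S_WRAP := by
  intro n δ T s h hn hδ S hfin hmain
  apply S.const_of_rect hδ
  intro t₀ ht₀
  refine ⟨δ, hδ, 1, one_pos, ?_⟩
  intro x0 x1 t1 t2 h12 ht1 ht2 _ _ hs
  have hs' : ∀ t ∈ Icc t1 t2, x0 < s t ∧ s t < x1 ∧ x1 < s t + δ := fun t ht => by
    have := hs t ht
    rw [min_self] at this
    exact this
  have F := S.flow hδ h12 ht1 ht2 hs'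
  have hD := (dom_open S).measurableSet
  have hfin' := fin_dis hfin x0 x1 t1 t2 hD
  have J : Jet (dom s δ T) (dx 1 h) (dx 2 h) (dx 3 h) := by
    refine ⟨S.continuous_x 2 (by norm_num), ?_, ?_⟩
    · intro z hz
      exact has_dx' S (k := 1) (m := 2) (by norm_num) rfl (x := z.1) (t := z.2) hz
    · intro z hz
      exact has_dx' S (k := 2) (m := 3) (by norm_num) rfl (x := z.1) (t := z.2) hz
  have hsc : ContinuousOn s (Icc t1 t2) := S.contact_continuous.mono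
    (fun t ht => ⟨lt_of_lt_of_le ht1 ht.1, lt_of_le_of_lt ht.2 ht2⟩)
  exact hmain x0 x1 t1 t2 (domW s δ T) (dom s δ T) s (gf s δ T h) (dx 1 h) (dx 2 h) (dx 3 h) _
    ⟨F, J, dom_sub, hn, hfin'⟩ hsc

end Pool.Agent.Q222.TF
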